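import Pool.Agent.helper91.MM.SpecB

set_option autoImplicit false

/-!
# Row mm:BLD
-/

namespace Pool.Agent.MM

open Pool.Agent.Scheepers Filter Topology Cardinal

/-- Gluing patterns block by block. -/
theorem BLD_glue (h1 : XBK_stmt) (S : Sys) (p : Cnd S) (J : ℕ) (s : ℕ → Bool) (u : ℕ → ℕ → Bool) :
    ∃ z : ℕ → Bool, (∀ e, e < p.a J → z e = s e) ∧
      ∀ j, J ≤ j → ∀ e, p.a j ≤ e → e < p.a (j + 1) → z e = u j e := by
  classical
  have hex : ∀ e, ∃ j, p.a J ≤ e → (J ≤ j ∧ p.a j ≤ e ∧ e < p.a (j + 1)) := by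
    intro e
    by_cases he : p.a J ≤ e
    · obtain ⟨j, hj⟩ := (h1 S p).1 J e he
      exact ⟨j, fun _ => hj⟩
    · exact ⟨0, fun h => absurd h he⟩
  choose g hg using hex
  refine ⟨fun e => if e < p.a J then s e else u (g e) e, fun e he => by simp [he], ?_⟩
  intro j hj e he he'
  have hJe : p.a J ≤ e := (p.mono.monotone hj).trans he
  have h2 := hg e hJe
  have h3 : g e = j := (h1 S p).2 _ _ e h2.2.1 h2.2.2 he he'
  simp [not_lt.2 hJe, h3]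

/-- Row BLD. -/
theorem BLD (h1 : XBK_stmt) : BLD_stmt := by
  classical
  intro S p N J hJ T hT x s
  have hu : ∀ j, ∃ u : ℕ → Bool, J ≤ j → (u ∈ p.A j ∧
      (∀ e, p.a j ≤ e → e < p.a (j + 1) → pos e ∈ T j → u e = false) ∧
      (∀ M, N ≤ M → (x j).1 ≤ M → (x j).2 ≤ M → x j ∉ T j →
        Lg S M (p.A j) (p.a j) (p.a (j + 1)) →
        ∃ e, p.a j ≤ e ∧ e < p.a (j + 1) ∧ pos e = x j ∧ u e = true)) := by
    intro j
    by_cases hj : J ≤ j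
    · by_cases hM : ∃ M, N ≤ M ∧ (x j).1 ≤ M ∧ (x j).2 ≤ M ∧ x j ∉ T j ∧
        Lg S M (p.A j) (p.a j) (p.a (j + 1))
      · obtain ⟨M, h1, h2, h3, h4, h5⟩ := hM
        obtain ⟨u, hu1, hu2, hu3⟩ := h5 (T j) (S.mono N M h1 (hT j hj)) (x j) h2 h3 h4
        exact ⟨u, fun _ => ⟨hu1, hu2, fun _ _ _ _ _ _ => hu3⟩⟩
      · obtain ⟨w, hw1, hw2, hw3⟩ := S.out N (T j) (hT j hj)
        obtain ⟨u, hu1, hu2, -⟩ := hJ j hj (T j) (hT j hj) w hw1 hw2 hw3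
        exact ⟨u, fun _ => ⟨hu1, hu2, fun M a1 a2 a3 a4 a5 => absurd ⟨M, a1, a2, a3, a4, a5⟩ hM⟩⟩
    · exact ⟨fun _ => false, fun h => absurd h hj⟩
  choose u hu using hu
  obtain ⟨z, hz1, hz2⟩ := BLD_glue h1 S p J s u
  refine ⟨z, hz1, fun j hj => ⟨?_, ?_, ?_⟩⟩
  · exact p.loc j (u j) z (fun e he he' => (hz2 j hj e he he').symm) (hu j hj).1
  · intro e he he' hpos
    rw [hz2 j hj e he he']
    exact (hu j hj).2.1 e he he' hpos
  · intro M h1 h2 h3 h4 h5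
    obtain ⟨e, he, he', hp, hue⟩ := (hu j hj).2.2 M h1 h2 h3 h4 h5
    exact ⟨e, he, he', hp, by rw [hz2 j hj e he he']; exact hue⟩

end Pool.Agent.MM
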